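import Pool.Agent.H68.QC.Targets

/-!
# Row AMN: monotonicity of the adaptive questions
-/

set_option autoImplicit false

namespace Pool.Agent.H6.QC

open Pool.Agent.H68.QC Pool.Agent.H70.OQ Pool.Agent.H70.RK Pool.Agent.H6.NB Finset

theorem adp_mono {V α : Type} {q q' : ((V → Bool) → Bool) → Prop} (hq : ∀ p, q p → q' p) (d : ℕ)
    {c : ℕ} {g : (V → Bool) → α} (h : Adp q c g) : Adp q' (c + d) g := by
  induction h with
  | pure c a => exact Adp.pure (c + d) a
  | ask c p g g0 g1 hp h0 h1 hg1 hg0 ih0 ih1 =>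
    have h2 := Adp.ask (q := q') (c + d) p g g0 g1 (hq p hp) ih0 ih1 hg1 hg0
    rwa [show c + d + 1 = c + 1 + d by omega] at h2

theorem qst_mono {V : Type} {t t' : ℕ} (ht : t ≤ t') :
    ∀ (r : ℕ) (p : (V → Bool) → Bool), Qst V t r p → Qst V t' r p := by
  intro r
  induction r with
  | zero => exact fun p hp => hp
  | succ r ih =>
    rintro p ⟨L, hL, hA, hp⟩
    refine ⟨L, hL.trans (Nat.pow_le_pow_right two_pos ht), fun g hg => ?_, hp⟩
    have h2 := adp_mono ih (t' - t) (hA g hg)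
    rwa [Nat.add_sub_cancel' ht] at h2

theorem pf_AMN : T_AMN := by
  intro V t t' r g ht h
  have h2 := adp_mono (qst_mono ht r) (t' - t) h
  rwa [Nat.add_sub_cancel' ht] at h2

end Pool.Agent.H6.QC
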